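import Pool.Agent.H547.V1.Stm

set_option autoImplicit false
set_option linter.unusedSectionVars false

namespace Pool.Agent.H166.SUN35

open Finset Pool.Agent.R439.PL Pool.Agent.H547 Pool.Agent.H547.V1

variable {p : ℕ} [hp : Fact p.Prime]

theorem unat {u : ℕ} (hu : ¬ p ∣ u) : U p (u : ℚ) := by
  have : ¬ (p : ℤ) ∣ (u : ℤ) := fun h => hu (Int.natCast_dvd_natCast.1 h)
  exact_mod_cast U_int this

theorem quot (a c j : ℕ) (hj : 0 < j) (hc : ¬ p ^ c ∣ j) (hca : c ≤ a) :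
    I p (a + 1 - c) (((p ^ a : ℕ) : ℚ) / j) := by
  obtain ⟨v, u, hu, rfl⟩ := Nat.exists_eq_pow_mul_and_not_dvd hj.ne' p hp.out.ne_one
  have hv : v < c := by
    by_contra h
    exact hc ((pow_dvd_pow p (not_lt.1 h)).trans (Dvd.intro _ rfl))
  refine ⟨(p : ℚ) ^ (c - 1 - v) / u, dmem (pow_mem p_mem _) (unat hu), ?_⟩
  have hp0 := p_ne (p := p)
  have hu0 : (u : ℚ) ≠ 0 := (unat hu).1
  have e : a = (a + 1 - c) + (c - 1 - v) + v := by omega
  push_cast
  conv_lhs => rw [e, pow_add, pow_add]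
  field_simp

theorem split (s : Finset ℕ) (P : ℕ → Prop) [DecidablePred P] (f : ℕ → ℚ) (h1 : ∀ i ∈ s, f i ∈ Zp p)
    (h2 : ∀ i ∈ s, ¬ P i → I p 2 (f i - 1)) : EQ p 2 (∏ i ∈ s, f i) (∏ i ∈ s.filter P, f i) := by
  rw [← prod_filter_mul_prod_filter_not s P]
  have a1 : EQ p 2 (∏ i ∈ s with P i, f i) (∏ i ∈ s with P i, f i) :=
    EQ.refl (prod_mem fun i hi => h1 i (mem_filter.1 hi).1)
  have a2 : EQ p 2 (∏ i ∈ s with ¬ P i, f i) (∏ i ∈ s with ¬ P i, 1) :=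
    EQ.prod fun i hi => ⟨h1 i (mem_filter.1 hi).1, one_mem _,
      h2 i (mem_filter.1 hi).1 (mem_filter.1 hi).2⟩
  have := a1.mul a2
  rwa [prod_const_one, mul_one] at this

/-- the first factor -/
def g1 (N : ℕ) (i : ℕ) : ℚ := (1 + (N : ℚ) / (3 * (i : ℚ))) * (1 + (N : ℚ) / (i : ℚ))
/-- the second factor -/
def g2 (N : ℕ) (j : ℕ) : ℚ := ((j : ℚ) + N) / ((j : ℚ) + 5 * N)

theorem tt_eq (N m : ℕ) : tt N m = (N : ℚ) ^ 2 / (3 * (m : ℚ) ^ 2) *
    ((∏ i ∈ Ico 1 m, g1 N i) * ∏ j ∈ (range (3 * m)).filter (fun j => j % 3 = N % 3), g2 N j) := by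
  unfold tt
  rw [mul_assoc, prod_Ico_eq_prod_range]
  congr 2
  refine prod_congr rfl fun i _ => ?_
  unfold g1
  push_cast
  rw [add_comm (1 : ℚ) (i : ℚ)]

theorem g1_mem (h3 : 3 < p) {N i : ℕ} (h : I p 1 ((N : ℚ) / i)) : g1 N i ∈ Zp p := by
  have k13 : (1 / 3 : ℚ) ∈ Zp p := m23 h3 1 0 1 (by norm_num)
  have e : g1 N i = (1 + 1 / 3 * ((N : ℚ) / i)) * (1 + (N : ℚ) / i) := by
    unfold g1
    congr 2
    rw [div_mul_div_comm, one_mul]
  rw [e]
  exact mul_mem (add_mem (one_mem _) (mul_mem k13 h.mem)) (add_mem (one_mem _) h.mem)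

theorem g1_one (h3 : 3 < p) {N i : ℕ} (h : I p 2 ((N : ℚ) / i)) : I p 2 (g1 N i - 1) := by
  have k13 : (1 / 3 : ℚ) ∈ Zp p := m23 h3 1 0 1 (by norm_num)
  have e : g1 N i - 1 = (N : ℚ) / i * (1 / 3 + 1 + 1 / 3 * ((N : ℚ) / i)) := by
    have : g1 N i = (1 + 1 / 3 * ((N : ℚ) / i)) * (1 + (N : ℚ) / i) := by
      unfold g1
      congr 2
      rw [div_mul_div_comm, one_mul]
    rw [this]; ring
  rw [e]
  exact h.mulR (add_mem (add_mem k13 (one_mem _)) (mul_mem k13 h.mem))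

theorem g2_form {N j : ℕ} (hj : 0 < j) : g2 N j = (1 + (N : ℚ) / j) / (1 + 5 * ((N : ℚ) / j)) := by
  have : (j : ℚ) ≠ 0 := by positivity
  have h2 : (j : ℚ) + 5 * N ≠ 0 := by positivity
  unfold g2
  field_simp

theorem g2_unit {N j : ℕ} (h : I p 1 ((N : ℚ) / j)) : U p (1 + 5 * ((N : ℚ) / j)) := by
  apply U_of_not_I (add_mem (one_mem _) (mul_mem (nm 5) h.mem))
  intro h'
  have := h'.sub (h.mulL (nm (p := p) 5))
  rw [add_sub_cancel_right] at this
  exact not_I_one this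

theorem g2_mem {N j : ℕ} (hj : 0 < j) (h : I p 1 ((N : ℚ) / j)) : g2 N j ∈ Zp p := by
  rw [g2_form hj]
  exact dmem (add_mem (one_mem _) h.mem) (g2_unit h)

theorem g2_one {N j : ℕ} (hj : 0 < j) (h : I p 2 ((N : ℚ) / j)) : I p 2 (g2 N j - 1) := by
  have hu := g2_unit (h.mono (by norm_num : 1 ≤ 2))
  have e : g2 N j - 1 = (N : ℚ) / j * (-4 / (1 + 5 * ((N : ℚ) / j))) := by
    rw [g2_form hj]
    have := hu.1
    generalize (N : ℚ) / j = x at *
    rw [div_sub_one this, mul_div_assoc']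
    congr 1
    ring
  rw [e]
  exact h.mulR (dmem (neg_mem (nm 4)) hu)

theorem not3 (h3 : 3 < p) : ¬ 3 ∣ p := by
  intro hd
  have := (Nat.prime_dvd_prime_iff_eq Nat.prime_three hp.out).1 hd
  omega

theorem ndvd {a j : ℕ} (hj : 0 < j) (hjN : j < p ^ a) : ¬ p ^ a ∣ j := fun h =>
  absurd (Nat.le_of_dvd hj h) (by omega)

theorem mem_tt (h3 : 3 < p) (b m : ℕ) (hmN : 3 * m ≤ p ^ (b + 1)) :
    (∏ i ∈ Ico 1 m, g1 (p ^ (b + 1)) i) *
      (∏ j ∈ (range (3 * m)).filter (fun j => j % 3 = p ^ (b + 1) % 3), g2 (p ^ (b + 1)) j) ∈ Zp p := by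
  have hN3 : ¬ 3 ∣ p ^ (b + 1) := fun h => not3 h3 (Nat.prime_three.dvd_of_dvd_pow h)
  have key : ∀ j, 0 < j → j < p ^ (b + 1) → I p 1 (((p ^ (b + 1) : ℕ) : ℚ) / j) := fun j h h' => by
    have := quot (p := p) (b + 1) (b + 1) j h (ndvd h h') le_rfl
    rwa [show b + 1 + 1 - (b + 1) = 1 by omega] at this
  refine mul_mem (prod_mem fun i hi => ?_) (prod_mem fun j hj => ?_)
  · rw [mem_Ico] at hi
    exact g1_mem h3 (key i (by omega) (by omega))
  · rw [mem_filter, mem_range] at hj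
    have : 0 < j := by omega
    exact g2_mem this (key j this (by omega))

theorem small (h3 : 3 < p) (b m : ℕ) (hm : 0 < m) (hmN : 3 * m ≤ p ^ (b + 1)) (hq : ¬ p ^ b ∣ m) :
    I p 4 (tt (p ^ (b + 1)) m) := by
  rw [tt_eq]
  have h := quot (p := p) (b + 1) b m hm hq (by omega)
  rw [show b + 1 + 1 - b = 2 by omega] at h
  have k13 : (1 / 3 : ℚ) ∈ Zp p := m23 h3 1 0 1 (by norm_num)
  have h2 := (h.mul h).mulL k13
  have h4 := h2.mulR (mem_tt h3 b m hmN)
  refine icg h4 ?_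
  congr 1
  have : (m : ℚ) ≠ 0 := by positivity
  field_simp

theorem large (h3 : 3 < p) (b m : ℕ) (hm : 0 < m) (hmN : 3 * m ≤ p) :
    I p 4 (tt (p ^ (b + 1)) (p ^ b * m) - tt p m) := by
  have hq0 : 0 < p ^ b := pow_pos hp.out.pos b
  have hN : p ^ (b + 1) = p ^ b * p := pow_succ p b
  have hN3 : ¬ 3 ∣ p ^ (b + 1) := fun h => not3 h3 (Nat.prime_three.dvd_of_dvd_pow h)
  have hq3 : ¬ 3 ∣ p ^ b := fun h => not3 h3 (Nat.prime_three.dvd_of_dvd_pow h)
  have hp3 := not3 h3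
  have hle : 3 * (p ^ b * m) ≤ p ^ (b + 1) := by
    rw [hN]
    calc 3 * (p ^ b * m) = p ^ b * (3 * m) := by ring
      _ ≤ p ^ b * p := Nat.mul_le_mul_left _ hmN
  have key : ∀ j, 0 < j → j < p ^ (b + 1) → I p 1 (((p ^ (b + 1) : ℕ) : ℚ) / j) := fun j h h' => by
    have := quot (p := p) (b + 1) (b + 1) j h (ndvd h h') le_rfl
    rwa [show b + 1 + 1 - (b + 1) = 1 by omega] at this
  have key2 : ∀ j, 0 < j → ¬ p ^ b ∣ j → I p 2 (((p ^ (b + 1) : ℕ) : ℚ) / j) := fun j h h' => by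
    have := quot (p := p) (b + 1) b j h h' (by omega)
    rwa [show b + 1 + 1 - b = 2 by omega] at this
  have quo : ∀ j : ℕ, ((p ^ (b + 1) : ℕ) : ℚ) / ((p ^ b * j : ℕ) : ℚ) = (p : ℚ) / j := by
    intro j
    have : ((p ^ b : ℕ) : ℚ) ≠ 0 := by exact_mod_cast hq0.ne'
    rw [hN]
    push_cast at this ⊢
    rw [mul_div_mul_left _ _ this]
  have E1 : EQ p 2 (∏ i ∈ Ico 1 (p ^ b * m), g1 (p ^ (b + 1)) i) (∏ i ∈ Ico 1 m, g1 p i) := by
    have h := split (p := p) (Ico 1 (p ^ b * m)) (fun i => p ^ b ∣ i) (g1 (p ^ (b + 1)))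
      (fun i hi => by
        rw [mem_Ico] at hi
        exact g1_mem h3 (key i (by omega) (by omega)))
      (fun i hi hd => by
        rw [mem_Ico] at hi
        exact g1_one h3 (key2 i (by omega) hd))
    have e : ∏ i ∈ (Ico 1 (p ^ b * m)).filter (fun i => p ^ b ∣ i), g1 (p ^ (b + 1)) i =
        ∏ i ∈ Ico 1 m, g1 p i := by
      symm
      refine prod_bij (fun i _ => p ^ b * i) ?_ ?_ ?_ ?_
      · intro i hi
        rw [mem_Ico] at hi
        rw [mem_filter, mem_Ico]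
        exact ⟨⟨Nat.mul_pos hq0 (by omega), Nat.mul_lt_mul_of_pos_left hi.2 hq0⟩, Dvd.intro _ rfl⟩
      · intro i _ j _ hij
        exact Nat.eq_of_mul_eq_mul_left hq0 hij
      · intro i hi
        rw [mem_filter, mem_Ico] at hi
        obtain ⟨⟨h1, h2⟩, k, rfl⟩ := hi
        refine ⟨k, ?_, rfl⟩
        rw [mem_Ico]
        exact ⟨Nat.pos_of_ne_zero (by rintro rfl; simp at h1), lt_of_mul_lt_mul_left h2 (Nat.zero_le _)⟩
      · intro i _
        have h1 := quo i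
        have gen : ∀ x y : ℚ, x / (3 * y) = x / y / 3 := by
          intro x y
          rw [div_div, mul_comm]
        unfold g1
        rw [gen, gen, h1]
    rwa [e] at h
  have E2 : EQ p 2 (∏ j ∈ (range (3 * (p ^ b * m))).filter (fun j => j % 3 = p ^ (b + 1) % 3), g2 (p ^ (b + 1)) j)
      (∏ j ∈ (range (3 * m)).filter (fun j => j % 3 = p % 3), g2 p j) := by
    have h := split (p := p) ((range (3 * (p ^ b * m))).filter (fun j => j % 3 = p ^ (b + 1) % 3))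
      (fun i => p ^ b ∣ i) (g2 (p ^ (b + 1)))
      (fun j hj => by
        rw [mem_filter, mem_range] at hj
        have : 0 < j := by omega
        exact g2_mem this (key j this (by omega)))
      (fun j hj hd => by
        rw [mem_filter, mem_range] at hj
        have : 0 < j := by omega
        exact g2_one this (key2 j this hd))
    have e : ∏ i ∈ ((range (3 * (p ^ b * m))).filter (fun j => j % 3 = p ^ (b + 1) % 3)).filter
        (fun i => p ^ b ∣ i), g2 (p ^ (b + 1)) i =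
        ∏ j ∈ (range (3 * m)).filter (fun j => j % 3 = p % 3), g2 p j := by
      symm
      refine prod_bij (fun i _ => p ^ b * i) ?_ ?_ ?_ ?_
      · intro i hi
        rw [mem_filter, mem_range] at hi
        rw [mem_filter, mem_filter, mem_range]
        refine ⟨⟨?_, ?_⟩, Dvd.intro _ rfl⟩
        · calc p ^ b * i < p ^ b * (3 * m) := Nat.mul_lt_mul_of_pos_left hi.1 hq0
            _ = 3 * (p ^ b * m) := by ring
        · rw [hN, Nat.mul_mod, hi.2, ← Nat.mul_mod]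
      · intro i _ j _ hij
        exact Nat.eq_of_mul_eq_mul_left hq0 hij
      · intro i hi
        rw [mem_filter, mem_filter, mem_range] at hi
        obtain ⟨⟨h1, h2⟩, k, rfl⟩ := hi
        refine ⟨k, ?_, rfl⟩
        rw [mem_filter, mem_range]
        constructor
        · have : p ^ b * k < p ^ b * (3 * m) := by
            calc p ^ b * k < 3 * (p ^ b * m) := h1
              _ = p ^ b * (3 * m) := by ring
          exact lt_of_mul_lt_mul_left this (Nat.zero_le _)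
        · have h4 : p ^ b * k ≡ p ^ b * p [MOD 3] := by
            rw [← hN]; exact h2
          exact Nat.ModEq.cancel_left_of_coprime
            (((Nat.Prime.coprime_iff_not_dvd Nat.prime_three).2 hq3)) h4
      · intro i hi
        rw [mem_filter, mem_range] at hi
        have hi0 : 0 < i := by omega
        rw [g2_form hi0, g2_form (Nat.mul_pos hq0 hi0), quo]
    rwa [e] at h
  have E := E1.mul E2
  rw [tt_eq, tt_eq]
  have hu : U p (m : ℚ) := uNat hm (by omega)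
  have e0 : ((p ^ (b + 1) : ℕ) : ℚ) ^ 2 / (3 * ((p ^ b * m : ℕ) : ℚ) ^ 2) = (p : ℚ) ^ 2 / (3 * (m : ℚ) ^ 2) := by
    have h1 := quo m
    have : ((p ^ (b + 1) : ℕ) : ℚ) ^ 2 / (3 * ((p ^ b * m : ℕ) : ℚ) ^ 2) =
        (((p ^ (b + 1) : ℕ) : ℚ) / ((p ^ b * m : ℕ) : ℚ)) ^ 2 / 3 := by
      rw [div_pow, div_div, mul_comm (3 : ℚ)]
    rw [this, h1, div_pow, div_div, mul_comm (3 : ℚ)]
  rw [e0]
  obtain ⟨c, hc, hc'⟩ := E.2.2
  refine ⟨1 / (3 * (m : ℚ) ^ 2) * c, mul_mem (dmem (one_mem _) ((u3 h3).mul (hu.pow 2))) hc, ?_⟩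
  rw [← mul_sub, hc']
  have := hu.1
  field_simp

theorem A4 : S_A4 := by
  intro p hp h3 a ha
  obtain ⟨b, rfl⟩ : ∃ b, a = b + 1 := ⟨a - 1, by omega⟩
  have hq0 : 0 < p ^ b := pow_pos hp.out.pos b
  have hN : p ^ (b + 1) = p ^ b * p := pow_succ p b
  have c1 : ∀ n : ℕ, ∀ f : ℕ → ℚ, ∑ m ∈ range n, f (m + 1) = ∑ m ∈ Ico 1 (n + 1), f m := by
    intro n f
    rw [sum_Ico_eq_sum_range]
    refine sum_congr rfl fun i _ => ?_
    rw [add_comm]
  rw [c1, c1, ← sum_filter_add_sum_filter_not (Ico 1 (p ^ (b + 1) / 3 + 1)) (fun m => p ^ b ∣ m)]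
  have e : ∑ m ∈ (Ico 1 (p ^ (b + 1) / 3 + 1)).filter (fun m => p ^ b ∣ m), tt (p ^ (b + 1)) m =
      ∑ m ∈ Ico 1 (p / 3 + 1), tt (p ^ (b + 1)) (p ^ b * m) := by
    symm
    refine sum_bij (fun i _ => p ^ b * i) ?_ ?_ ?_ ?_
    · intro i hi
      rw [mem_Ico] at hi
      rw [mem_filter, mem_Ico]
      refine ⟨⟨Nat.mul_pos hq0 (by omega), ?_⟩, Dvd.intro _ rfl⟩
      rw [Nat.lt_succ_iff, Nat.le_div_iff_mul_le (by norm_num), hN]
      calc p ^ b * i * 3 = p ^ b * (i * 3) := by ring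
        _ ≤ p ^ b * p := Nat.mul_le_mul_left _ (by omega)
    · intro i _ j _ hij
      exact Nat.eq_of_mul_eq_mul_left hq0 hij
    · intro i hi
      rw [mem_filter, mem_Ico] at hi
      obtain ⟨⟨h1, h2⟩, k, rfl⟩ := hi
      refine ⟨k, ?_, rfl⟩
      rw [mem_Ico]
      refine ⟨Nat.pos_of_ne_zero (by rintro rfl; simp at h1), ?_⟩
      rw [Nat.lt_succ_iff, Nat.le_div_iff_mul_le (by norm_num), hN] at h2
      have : p ^ b * (k * 3) ≤ p ^ b * p := by
        calc p ^ b * (k * 3) = p ^ b * k * 3 := by ring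
          _ ≤ p ^ b * p := h2
      have := Nat.le_of_mul_le_mul_left this hq0
      omega
    · intro i _
      rfl
  rw [e]
  have h1 : I p 4 (∑ m ∈ Ico 1 (p / 3 + 1), (tt (p ^ (b + 1)) (p ^ b * m) - tt p m)) :=
    I.sum fun m hm => by
      rw [mem_Ico] at hm
      exact large h3 b m (by omega) (by omega)
  have h2 : I p 4 (∑ m ∈ (Ico 1 (p ^ (b + 1) / 3 + 1)).filter (fun m => ¬ p ^ b ∣ m), tt (p ^ (b + 1)) m) :=
    I.sum fun m hm => by
      rw [mem_filter, mem_Ico] at hm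
      exact small h3 b m (by omega) (by omega) hm.2
  rw [sum_sub_distrib] at h1
  exact icg (h1.add h2) (by ring)

end Pool.Agent.H166.SUN35
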