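import Pool.Agent.H547.V1.Stm

set_option autoImplicit false
set_option linter.unusedSectionVars false

namespace Pool.Agent.H166.SUN35

open Finset Pool.Agent.R439.PL Pool.Agent.H547 Pool.Agent.H547.V1

variable {p : ℕ} [hp : Fact p.Prime]

/-- `x ≡ 1 + p a` modulo `p ^ 2` -/
def L2 (p : ℕ) [Fact p.Prime] (x a : ℚ) : Prop := a ∈ Zp p ∧ I p 2 (x - (1 + p * a))

theorem L2.memx {x a : ℚ} (h : L2 p x a) : x ∈ Zp p := by
  have := add_mem h.2.mem (add_mem (one_mem (Zp p)) (mul_mem (p_mem (p := p)) h.1))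
  rwa [sub_add_cancel] at this

theorem L2.one : L2 p 1 0 := ⟨zero_mem _, by simpa using I.zero (p := p) (k := 2)⟩

theorem L2.mul {x y a b : ℚ} (hx : L2 p x a) (hy : L2 p y b) : L2 p (x * y) (a + b) := by
  refine ⟨add_mem hx.1 hy.1, ?_⟩
  have h1 := hx.2.mulR hy.memx
  have h2 := hy.2.mulL (add_mem (one_mem (Zp p)) (mul_mem (p_mem (p := p)) hx.1))
  have h3 : I p 2 ((p : ℚ) ^ 2 * (a * b)) := ⟨a * b, mul_mem hx.1 hy.1, rfl⟩
  exact icg ((h1.add h2).add h3) (by ring)

theorem L2.prod {ι : Type*} {s : Finset ι} {f g : ι → ℚ} (h : ∀ i ∈ s, L2 p (f i) (g i)) :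
    L2 p (∏ i ∈ s, f i) (∑ i ∈ s, g i) := by
  classical
  induction s using Finset.induction_on with
  | empty => simpa using L2.one
  | insert a s ha ih =>
    rw [prod_insert ha, sum_insert ha]
    exact (h a (mem_insert_self _ _)).mul (ih fun i hi => h i (mem_insert_of_mem hi))

theorem L2.congr {x a b : ℚ} (h : L2 p x a) (hb : I p 1 (a - b)) : L2 p x b := by
  have hbm : b ∈ Zp p := by
    have := sub_mem h.1 hb.mem
    rwa [sub_sub_cancel] at this
  refine ⟨hbm, ?_⟩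
  have h1 := (I_p (p := p)).mul hb
  exact icg (h.2.add h1) (by ring)

theorem L2.one_add {x a : ℚ} (ha : a ∈ Zp p) (h : x = 1 + p * a) : L2 p x a :=
  ⟨ha, by rw [h, sub_self]; exact I.zero⟩

/-- the harmonic identity -/
theorem harm (M : ℕ) : ∑ m ∈ range M, (H m 1 + H M 1 - H (M - 1 - m) 1) / ((m : ℚ) + 1) ^ 2 = H M 3 := by
  induction M with
  | zero => simp [H_zero]
  | succ M ih =>
    have hr : ∑ m ∈ range M, 1 / (((M - 1 - m : ℕ) : ℚ) + 1) = H M 1 := by
      unfold H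
      rw [sum_range_reflect (fun i => 1 / ((i : ℚ) + 1)) M]
      simp
    have hH : ∑ m ∈ range M, 1 / ((m : ℚ) + 1) = H M 1 := by
      unfold H; simp
    rw [sum_range_succ, H_succ M 3]
    have e : ∀ m ∈ range M, (H m 1 + H (M + 1) 1 - H (M + 1 - 1 - m) 1) / ((m : ℚ) + 1) ^ 2 =
        (H m 1 + H M 1 - H (M - 1 - m) 1) / ((m : ℚ) + 1) ^ 2 -
          (1 / ((m : ℚ) + 1) + 1 / (((M - 1 - m : ℕ) : ℚ) + 1)) / ((M : ℚ) + 1) ^ 2 := by
      intro m hm
      have hm' := mem_range.1 hm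
      have e1 : M + 1 - 1 - m = (M - 1 - m) + 1 := by omega
      rw [e1, H_succ, H_succ]
      have e2 : (((M - 1 - m : ℕ) : ℚ) + 1) = (M : ℚ) - m := by
        have : ((M - 1 - m : ℕ) : ℚ) + 1 + m = (M : ℚ) := by
          have h2 : M - 1 - m + 1 + m = M := by omega
          exact_mod_cast h2
        linarith
      rw [e2]
      have h1 : (m : ℚ) + 1 ≠ 0 := by positivity
      have h2 : (M : ℚ) - m ≠ 0 := by
        have : (m : ℚ) < M := by exact_mod_cast hm'
        linarith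
      have h3 : (M : ℚ) + 1 ≠ 0 := by positivity
      field_simp
      ring
    rw [sum_congr rfl e, sum_sub_distrib, ih, ← sum_div, sum_add_distrib, hr, hH]
    have e3 : M + 1 - 1 - M = 0 := by omega
    rw [e3, H_zero, H_succ]
    have h3 : (M : ℚ) + 1 ≠ 0 := by positivity
    field_simp
    ring

theorem sumj (r m : ℕ) (hr : r = 1 ∨ r = 2) (g : ℕ → ℚ) :
    ∑ j ∈ (range (3 * m)).filter (fun j => j % 3 = r), g j = ∑ i ∈ range m, g (3 * i + r) := by
  induction m with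
  | zero => simp
  | succ m ih =>
    rw [sum_range_succ, ← ih, show 3 * (m + 1) = 3 * m + 1 + 1 + 1 by ring, range_add_one, range_add_one,
      range_add_one, filter_insert, filter_insert, filter_insert]
    have a0 : ¬ (3 * m) % 3 = r := by omega
    rcases hr with rfl | rfl
    · have a1 : (3 * m + 1) % 3 = 1 := by omega
      have a2 : ¬ (3 * m + 1 + 1) % 3 = 1 := by omega
      rw [if_neg a2, if_pos a1, if_neg a0, sum_insert (by simp)]
      ring
    · have a1 : ¬ (3 * m + 1) % 3 = 2 := by omega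
      have a2 : (3 * m + 1 + 1) % 3 = 2 := by omega
      rw [if_pos a2, if_neg a1, if_neg a0, sum_insert (by simp)]
      ring

theorem tt_congr (h3 : 3 < p) (m : ℕ) (hm : m < p / 3) :
    I p 4 (tt p (m + 1) - (p : ℚ) ^ 2 / (3 * ((m : ℚ) + 1) ^ 2) *
      (1 + p * (4 / 3 * (H m 1 + H (p / 3) 1 - H (p / 3 - 1 - m) 1)))) := by
  have hmod : p % 3 = 1 ∨ p % 3 = 2 := by
    have : ¬ 3 ∣ p := by
      intro hd
      have := (Nat.prime_dvd_prime_iff_eq Nat.prime_three hp.out).1 hd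
      omega
    omega
  have hM : p = 3 * (p / 3) + p % 3 := (Nat.div_add_mod p 3).symm
  set M := p / 3 with hMdef
  set r := p % 3 with hrdef
  have k43 : (4 / 3 : ℚ) ∈ Zp p := m23 h3 4 0 1 (by norm_num)
  have k13 : (1 / 3 : ℚ) ∈ Zp p := m23 h3 1 0 1 (by norm_num)
  have hP1 : L2 p (∏ i ∈ range m, ((1 + (p : ℚ) / (3 * ((i : ℚ) + 1))) * (1 + (p : ℚ) / ((i : ℚ) + 1))))
      (4 / 3 * H m 1) := by
    have : L2 p (∏ i ∈ range m, ((1 + (p : ℚ) / (3 * ((i : ℚ) + 1))) * (1 + (p : ℚ) / ((i : ℚ) + 1))))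
      (∑ i ∈ range m, (1 / (3 * ((i : ℚ) + 1)) + 1 / ((i : ℚ) + 1))) := by
      refine L2.prod fun i hi => ?_
      have hi' := mem_range.1 hi
      have hu : U p ((i : ℚ) + 1) := uSucc hi' (by omega)
      exact (L2.one_add (dmem (one_mem _) ((u3 h3).mul hu)) (by ring)).mul
        (L2.one_add (dmem (one_mem _) hu) (by ring))
    convert this using 1
    unfold H
    rw [mul_sum]
    refine sum_congr rfl fun i _ => ?_
    have : (i : ℚ) + 1 ≠ 0 := by positivity
    field_simp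
    norm_num
  have hP2 : L2 p (∏ j ∈ (range (3 * (m + 1))).filter (fun j => j % 3 = p % 3), ((j : ℚ) + p) / ((j : ℚ) + 5 * p))
      (4 / 3 * (H M 1 - H (M - 1 - m) 1)) := by
    have h1 : L2 p (∏ j ∈ (range (3 * (m + 1))).filter (fun j => j % 3 = p % 3), ((j : ℚ) + p) / ((j : ℚ) + 5 * p))
        (∑ j ∈ (range (3 * (m + 1))).filter (fun j => j % 3 = p % 3), (-4 / (j : ℚ))) := by
      refine L2.prod fun j hj => ?_
      rw [mem_filter, mem_range] at hj
      have hj0 : 0 < j := by omega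
      have hjp : j < p := by omega
      have hu : U p (j : ℚ) := uNat hj0 hjp
      have hu5 : U p ((j : ℚ) + 5 * p) := by
        apply U_of_not_I (add_mem hu.2.1 (mul_mem (nm 5) p_mem))
        intro h
        have h5 : I p 1 ((5 : ℚ) * p) := (I_p (p := p)).mulL (nm 5)
        have := h.sub h5
        rw [add_sub_cancel_right] at this
        exact hu.not_I one_pos this
      refine ⟨dmem (neg_mem (nm 4)) hu, ?_⟩
      have : I p 2 ((p : ℚ) ^ 2 * (20 / ((j : ℚ) * ((j : ℚ) + 5 * p)))) :=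
        ⟨_, dmem (nm 20) (hu.mul hu5), rfl⟩
      refine icg this ?_
      have a1 := hu.1
      have a2 := hu5.1
      field_simp
      ring
    refine h1.congr ?_
    rw [← hrdef, sumj r (m + 1) hmod]
    have hH : H M 1 - H (M - 1 - m) 1 = ∑ i ∈ range (m + 1), 1 / ((M : ℚ) - i) := by
      clear hP1 h1
      induction m with
      | zero =>
        have e : M = M - 1 - 0 + 1 := by omega
        have e' : H M 1 = H (M - 1 - 0) 1 + 1 / (((M - 1 - 0 : ℕ) : ℚ) + 1) ^ 1 := by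
          conv_lhs => rw [e]
          exact H_succ _ _
        rw [e']
        have e2 : (((M - 1 - 0 : ℕ) : ℚ) + 1) = (M : ℚ) := by exact_mod_cast e.symm
        rw [e2]
        simp
      | succ m ih =>
        rw [sum_range_succ, ← ih (by omega)]
        have e : M - 1 - m = M - 1 - (m + 1) + 1 := by omega
        rw [e, H_succ]
        have e2 : (((M - 1 - (m + 1) : ℕ) : ℚ) + 1) = (M : ℚ) - ((m + 1 : ℕ) : ℚ) := by
          have : (((M - 1 - (m + 1) : ℕ) : ℚ) + 1) + ((m + 1 : ℕ) : ℚ) = (M : ℚ) := by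
            have : M - 1 - (m + 1) + 1 + (m + 1) = M := by omega
            exact_mod_cast this
          linarith
        rw [e2]
        ring
    rw [hH, mul_sum, ← sum_sub_distrib]
    refine I.sum fun i hi => ?_
    have hi' := mem_range.1 hi
    have hu1 : U p (((3 * i + r : ℕ) : ℚ)) := uNat (by omega) (by omega)
    have hu2 : U p ((M : ℚ) - i) := by
      have : U p (((M - i : ℕ) : ℚ)) := uNat (by omega) (by omega)
      rwa [Nat.cast_sub (by omega)] at this
    have e : (p : ℚ) = ((3 * i + r : ℕ) : ℚ) + 3 * ((M : ℚ) - i) := by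
      have : (p : ℚ) = 3 * M + r := by exact_mod_cast hM
      push_cast
      linarith
    have : I p 1 ((p : ℚ) ^ 1 * (-(4 / 3) / (((3 * i + r : ℕ) : ℚ) * ((M : ℚ) - i)))) :=
      ⟨_, dmem (neg_mem k43) (hu1.mul hu2), rfl⟩
    refine icg this ?_
    have a1 := hu1.1
    have a2 := hu2.1
    rw [pow_one]
    conv_lhs => rw [e]
    field_simp
    ring
  have hP := hP1.mul hP2
  obtain ⟨c, hc, hc'⟩ := hP.2
  have hu : U p ((m : ℚ) + 1) := uSucc (n := m + 1) (by omega) (by omega)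
  refine ⟨1 / (3 * ((m : ℚ) + 1) ^ 2) * c, mul_mem (dmem (one_mem _) ((u3 h3).mul (hu.pow 2))) hc, ?_⟩
  have e : tt p (m + 1) = (p : ℚ) ^ 2 / (3 * ((m : ℚ) + 1) ^ 2) *
      ((∏ i ∈ range m, ((1 + (p : ℚ) / (3 * ((i : ℚ) + 1))) * (1 + (p : ℚ) / ((i : ℚ) + 1)))) *
      ∏ j ∈ (range (3 * (m + 1))).filter (fun j => j % 3 = p % 3), ((j : ℚ) + p) / ((j : ℚ) + 5 * p)) := by
    unfold tt
    rw [Nat.add_sub_cancel, mul_assoc]
    push_cast
    rfl
  rw [e]
  have e2 : (∏ i ∈ range m, ((1 + (p : ℚ) / (3 * ((i : ℚ) + 1))) * (1 + (p : ℚ) / ((i : ℚ) + 1)))) *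
      ∏ j ∈ (range (3 * (m + 1))).filter (fun j => j % 3 = p % 3), ((j : ℚ) + p) / ((j : ℚ) + 5 * p) =
      1 + (p : ℚ) * (4 / 3 * H m 1 + 4 / 3 * (H M 1 - H (M - 1 - m) 1)) + (p : ℚ) ^ 2 * c := by
    rw [← hc']; ring
  rw [e2]
  have a1 := hu.1
  field_simp
  ring

theorem A5 : S_A5 := by
  intro p hp h3
  have h1 : I p 4 (∑ m ∈ range (p / 3), (tt p (m + 1) - (p : ℚ) ^ 2 / (3 * ((m : ℚ) + 1) ^ 2) *
      (1 + p * (4 / 3 * (H m 1 + H (p / 3) 1 - H (p / 3 - 1 - m) 1))))) :=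
    I.sum fun m hm => tt_congr h3 m (mem_range.1 hm)
  refine icg h1 ?_
  rw [sum_sub_distrib]
  congr 1
  rw [← harm (p / 3), mul_sum]
  conv_rhs => rw [H, mul_sum, ← sum_add_distrib]
  refine sum_congr rfl fun m _ => ?_
  have : (m : ℚ) + 1 ≠ 0 := by positivity
  field_simp
  ring

end Pool.Agent.H166.SUN35

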